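import Mathlib
import Pool.Agent.V11327.SMfinal
import Pool.Agent.V11327.SMlaw

/-!
# MP_c59c01_pr: the logarithmic moment condition is not sharp for the Stack Model

Disproof of Q1. For `d = 2` there are a law of `X` on `{1, 2, ...}` with `E log X = ∞` and a
`p ∈ (0, p_c)` such that for every `q < 1`, for almost every environment, the origin almost surely
does not lie in an infinite open cluster.
-/

open MeasureTheory Pool.Agent.V11327.SM
open scoped ENNReal

namespace Pool.Agent.Results.MP_c59c01_pr.LogMomentNotSharp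

theorem result :
    ∃ m : Measure ℕ, IsProbabilityMeasure m ∧ m {0} = 0 ∧
      ∫⁻ x, ENNReal.ofReal (Real.log x) ∂m = ⊤ ∧
      ∃ p : Set.Icc (0 : ℝ) 1, 0 < (p : ℝ) ∧ (p : ℝ) < pc ∧
        ∀ q : Set.Icc (0 : ℝ) 1, (q : ℝ) < 1 →
          ∀ᵐ X ∂(Measure.infinitePi (fun _ : ℤ => m)), theta (region X) p q = 0 := by
  refine ⟨law, inferInstance, law_zero, law_log, p0, ?_, p0_lt_pc, ?_⟩
  · unfold p0
    norm_num
  · intro q hq
    exact main law law_tail law_two law_zero q hq

end Pool.Agent.Results.MP_c59c01_pr.LogMomentNotSharp
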